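import Pool.Agent.Helper13.TR.StC

/-!
# Project TR: module PROPR2, products (`StPRO`, `StPR2`)
-/

set_option autoImplicit false

namespace Pool.Agent.Helper43.TR

open Set Topology Pool.Agent.Helper13.TR

/-- PRO: a closed embedding of a homology manifold in `ℝ × Y`, `Y` of class `G2`, has a product as its image. -/
theorem hPRO (hT1 : StT1) : StPRO := by
  intro W Y _ _ _ _ _ hW hY f hf
  have hfc : Continuous f := hf.continuous
  have key := hT1 W Y hW hY ⟨fun w => (f w).1, continuous_fst.comp hfc⟩ ⟨fun w => (f w).2, continuous_snd.comp hfc⟩ hf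
  refine ⟨{y | ((0 : ℝ), y) ∈ range f}, ?_, ?_⟩
  · exact hf.isClosed_range.preimage (f := fun y : Y => ((0 : ℝ), y)) (by fun_prop)
  · ext p
    constructor
    · rintro ⟨w, rfl⟩
      obtain ⟨w', h1, h2⟩ := key w 0
      exact ⟨w', Prod.ext h2 h1⟩
    · rintro ⟨w, hw⟩
      obtain ⟨w', h1, h2⟩ := key w p.1
      refine ⟨w', Prod.ext h2 ?_⟩
      have h3 : (f w).2 = p.2 := by rw [hw]
      exact h1.trans h3

/-- the exchange of the two real coordinates -/
private def swp (V : Type) [TopologicalSpace V] : ℝ × ℝ × V ≃ₜ ℝ × ℝ × V where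
  toFun p := (p.2.1, p.1, p.2.2)
  invFun p := (p.2.1, p.1, p.2.2)
  left_inv _ := rfl
  right_inv _ := rfl
  continuous_toFun := by fun_prop
  continuous_invFun := by fun_prop

/-- PR2: the same for `ℝ × ℝ × V` with `V` of dimension at most one. -/
theorem hPR2 (hPRO : StPRO) (hG2B : StG2B) : StPR2 := by
  intro W V _ _ _ _ _ _ hW hV f hf
  have hG : G2 (ℝ × V) := hG2B V hV
  obtain ⟨A₁, -, h₁⟩ := hPRO W (ℝ × V) hW hG f hf
  obtain ⟨A₂, -, h₂⟩ := hPRO W (ℝ × V) hW hG (swp V ∘ f) ((swp V).isClosedEmbedding.comp hf)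
  -- invariance of the range in the two real coordinates
  have i₁ : ∀ (a a' b : ℝ) (v : V), (a, b, v) ∈ range f → (a', b, v) ∈ range f := by
    intro a a' b v h
    rw [h₁] at h ⊢
    exact h
  have e : ∀ (a b : ℝ) (v : V), (a, b, v) ∈ range f ↔ (b, a, v) ∈ range (swp V ∘ f) := by
    intro a b v
    constructor
    · rintro ⟨w, hw⟩
      refine ⟨w, ?_⟩
      show ((f w).2.1, (f w).1, (f w).2.2) = (b, a, v)
      rw [hw]
    · rintro ⟨w, hw⟩
      refine ⟨w, ?_⟩
      have hw' : ((f w).2.1, (f w).1, (f w).2.2) = (b, a, v) := hw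
      have a1 : (f w).2.1 = b := congrArg Prod.fst hw'
      have a2 : (f w).1 = a := congrArg (fun p : ℝ × ℝ × V => p.2.1) hw'
      have a3 : (f w).2.2 = v := congrArg (fun p : ℝ × ℝ × V => p.2.2) hw'
      exact Prod.ext a2 (Prod.ext a1 a3)
  have i₂ : ∀ (a b b' : ℝ) (v : V), (a, b, v) ∈ range f → (a, b', v) ∈ range f := by
    intro a b b' v h
    rw [e, h₂] at h
    rw [e, h₂]
    exact h
  refine ⟨{v | ((0 : ℝ), (0 : ℝ), v) ∈ range f}, ?_, ?_⟩
  · exact hf.isClosed_range.preimage (f := fun v : V => ((0 : ℝ), (0 : ℝ), v)) (by fun_prop)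
  · ext ⟨a, b, v⟩
    constructor
    · intro h
      exact i₂ 0 b 0 v (i₁ a 0 b v h)
    · intro h
      exact i₁ 0 a b v (i₂ 0 0 b v h)

end Pool.Agent.Helper43.TR
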